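import Mathlib
import Pool.Agent.H15.Det

set_option autoImplicit false

namespace Pool.Agent.Results.MP_e7c87c_co.Negative

open Matrix Finset

/-- Positive definite matrices with unit diagonal and entry `x` on every edge. -/
def Adm {V : Type} [Fintype V] (G : SimpleGraph V) (x : ℝ) : Set (Matrix V V ℝ) :=
  {M | M.PosDef ∧ (∀ v, M v v = 1) ∧ ∀ u v, G.Adj u v → M u v = x}

abbrev O := Fin 6 × Fin 568

def R : Fin 6 ⊕ O → Fin 6 ⊕ O → Prop
  | .inl i, .inl j => j = i + 2
  | .inl i, .inr o => i = o.1 ∨ i = o.1 + 1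
  | _, _ => False

def G : SimpleGraph (Fin 6 ⊕ O) := .fromRel R

noncomputable def P : Matrix (Fin 6) (Fin 6) ℝ :=
  fun i j => ![1, 17 / 40, 1 / 20, -1 / 20, 1 / 20, 17 / 40] (j - i)

noncomputable def C : Matrix (Fin 6) (Fin 6) ℝ :=
  fun i j => ![170 / 57, 0, 10 / 57, 0, 10 / 57, 0] (j - i)

noncomputable def W : Matrix O (Fin 6) ℝ :=
  fun o i => if i = o.1 ∨ i = o.1 + 1 then 2 / 57 else 0

noncomputable def s : ℝ := 284 / 285

noncomputable def M := fromBlocks P (P * Wᵀ) (W * P) (W * P * Wᵀ + s • 1)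

noncomputable def K := fromBlocks C (-s⁻¹ • Wᵀ) (-s⁻¹ • W) (s⁻¹ • (1 : Matrix O O ℝ))

lemma cp : C * P = 1 + s⁻¹ • (Wᵀ * W * P) := by
  have : Wᵀ * W = fun i j => ![4544 / 3249, 2272 / 3249, 0, 0, 0, 2272 / 3249] (j - i) := by
    ext i j
    simp only [mul_apply, Fintype.sum_prod_type, W, transpose_apply, sum_const, Fin.sum_univ_six]
    fin_cases i <;> fin_cases j <;> simp +decide <;> norm_num
  rw [this]
  ext i j
  simp only [mul_apply, Fin.sum_univ_six, Matrix.add_apply, Matrix.smul_apply, P, C, s, one_apply]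
  fin_cases i <;> fin_cases j <;> simp +decide <;> norm_num

lemma km : K * M = 1 := by
  have : s⁻¹ * s = 1 := by norm_num [s]
  rw [K, M, fromBlocks_multiply, ← fromBlocks_one, ← Matrix.mul_assoc C, cp]
  congr 1 <;> simp [Matrix.mul_add, Matrix.add_mul, Matrix.mul_assoc, smul_smul, this, mul_comm s]

lemma ps : Pᵀ = P := by
  ext i j
  fin_cases i <;> fin_cases j <;> simp +decide [P]

lemma pd : M.PosDef := by
  have p : P.PosSemidef := .of_dotProduct_mulVec_nonneg ps fun x => by
    simp +decide only [dotProduct, mulVec, Fin.sum_univ_six, P]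
    simp +decide
    nlinarith [sq_nonneg (x 0 + x 1), sq_nonneg (x 1 + x 2), sq_nonneg (x 2 + x 3),
      sq_nonneg (x 3 + x 4), sq_nonneg (x 4 + x 5), sq_nonneg (x 5 + x 0),
      sq_nonneg (x 0 + x 1 + x 2), sq_nonneg (x 1 + x 2 + x 3), sq_nonneg (x 2 + x 3 + x 4),
      sq_nonneg (x 3 + x 4 + x 5), sq_nonneg (x 4 + x 5 + x 0), sq_nonneg (x 5 + x 0 + x 1),
      sq_nonneg (x 0 - x 3), sq_nonneg (x 1 - x 4), sq_nonneg (x 2 - x 5), sq_nonneg (x 0),
      sq_nonneg (x 1), sq_nonneg (x 2), sq_nonneg (x 3), sq_nonneg (x 4), sq_nonneg (x 5)]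
  have e : M = fromRows 1 W * P * (fromRows 1 W)ᴴ + diagonal (Sum.elim 0 fun _ => s) := by
    rw [conjTranspose_fromRows_eq_fromCols_conjTranspose, fromRows_mul, fromRows_mul_fromCols,
      ← fromBlocks_diagonal, fromBlocks_add, M, smul_one_eq_diagonal]
    simp
  have : M.PosSemidef := e ▸ (p.mul_mul_conjTranspose_same _).add
    (posSemidef_diagonal_iff.2 (by rintro (i | i) <;> norm_num [s]))
  refine this.posDef_iff_det_ne_zero.2 fun z => ?_
  simpa [z] using congrArg det km

lemma wp (o : O) (i : Fin 6) (h : i = o.1 ∨ i = o.1 + 1) : (W * P) o i = 1 / 20 := by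
  obtain ⟨t, a⟩ := o
  simp only [mul_apply, Fin.sum_univ_six, W, P]
  rcases h with h | h <;> rw [h] <;> fin_cases t <;> simp +decide <;> norm_num

lemma adm : M ∈ Adm G (1 / 20) := by
  have r : ∀ u v, R u v → M u v = 1 / 20 := by
    rintro (i | o) (j | o') h
    · obtain rfl : j = i + 2 := h
      simp [M, P]
    · rw [← wp o' i h, ← pd.isHermitian.apply]
      simp [M]
    all_goals exact h.elim
  refine ⟨pd, ?_, fun u v h => h.2.elim (r u v) fun k => ?_⟩
  · rintro (i | ⟨t, a⟩)
    · simp [M, P]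
    · have h1 := wp (t, a) t (.inl rfl)
      have h2 := wp (t, a) (t + 1) (.inr rfl)
      simp only [M, fromBlocks_apply₂₂, Matrix.add_apply]
      rw [mul_apply, Fin.sum_univ_six]
      generalize W * P = X at *
      fin_cases t <;> simp +decide [W, s] at * <;> linarith
  · rw [← r v u k, ← pd.isHermitian.apply]
    simp

lemma sup (u v : Fin 6 ⊕ O) (h : K u v ≠ 0) : u = v ∨ G.Adj u v := by
  rcases u with i | o <;> rcases v with j | o'
  · revert h
    fin_cases i <;> fin_cases j <;> simp +decide [K, C, G, R]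
  · exact .inr ⟨by simp, .inl (by_contra fun n => h (by simp [K, W, show ¬(_ ∨ _) from n]))⟩
  · exact .inr ⟨by simp, .inr (by_contra fun n => h (by simp [K, W, show ¬(_ ∨ _) from n]))⟩
  · exact .inl (by_contra fun n => h (by simp [K, one_apply_ne fun e => n (congrArg _ e)]))

/-- A connected graph whose determinant-maximising matrix has a negative entry. -/
theorem result : ∃ (V : Type) (_ : Fintype V) (_ : DecidableEq V) (G : SimpleGraph V) (x : ℝ),
    G.Connected ∧ 0 < x ∧ x < 1 ∧
      ∃ M ∈ Adm G x, (∀ N ∈ Adm G x, N ≠ M → N.det < M.det) ∧ ∃ u v, M u v < 0 := by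
  refine ⟨_, inferInstance, inferInstance, G, 1 / 20, ?_, by norm_num, by norm_num, M, adm,
    fun N hN n => not_le.1 fun d => n (H15.Det.mx pd hN.1 km ?_ d), .inl 0, .inl 3,
    by simp +decide [M, P]; norm_num⟩
  · have a : ∀ (i : Fin 6) (o : O), i = o.1 ∨ i = o.1 + 1 → G.Reachable (.inl i) (.inr o) :=
      fun i o h => SimpleGraph.Adj.reachable ⟨by simp, .inl h⟩
    have b : ∀ i : Fin 6, G.Reachable (.inl 0) (.inl i) := fun i => by
      induction i using Fin.induction with
      | zero => rfl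
      | succ i h => exact (h.trans (a _ (i.castSucc, 0) (.inl rfl))).trans
                      (a _ _ (.inr (by simp))).symm
    refine (SimpleGraph.connected_iff_exists_forall_reachable _).2 ⟨.inl 0, ?_⟩
    rintro (i | o)
    exacts [b i, (b o.1).trans (a _ _ (.inl rfl))]
  · rw [← trace_one, ← km]
    refine sum_congr rfl fun u _ => ?_
    simp only [diag_apply, mul_apply]
    refine sum_congr rfl fun v _ => ?_
    rcases eq_or_ne (K u v) 0 with z | z
    · simp [z]
    rcases sup u v z with rfl | h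
    · rw [hN.2.1, adm.2.1]
    · rw [hN.2.2 _ _ h.symm, adm.2.2 _ _ h.symm]

end Pool.Agent.Results.MP_e7c87c_co.Negative
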